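import Pool.Agent.D0H43.RZ.End

/-!
# Ranks over the quadratic extensions of `ℚ(i)` that are unramified outside two: the final form
-/

set_option autoImplicit false

open NumberField WeierstrassCurve Filter
open scoped Topology Classical

namespace Pool.Agent.D0H43.RZ

open H385 (ZI RQ im1 nrm)
open Pool.Agent.Y699 (SB mem_SB PS pi1)
open Pool.Agent.D0H10.Q4
open Pool.Agent.D0H10.Q5 (Dn Ker facts_s FactS finS finA low_of prob S_LA2 S_SUM set_and rho_lt rk2
  rk2_pow fin_K)
open Pool.Agent.D0H10.Q5.Inf (killed SelInf E1)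
open Pool.Agent.D0H43.JQ (Both One killed_eq neg_cl)

section

variable {K : Type} [Field K] [NumberField K] [IsCyclotomicExtension {4} ℚ K]

/-- an element of `𝓞 K` whose square root is in `K` -/
lemma sq_of (e : ZI ≃+* 𝓞 K) (w : ZI) (t : K) (ht : t ^ 2 = ((e w : 𝓞 K) : K)) :
    ∃ s : ZI, s ^ 2 = w := by
  have h1 : IsIntegral ℤ t := by
    refine IsIntegral.of_pow (n := 2) (by norm_num) ?_
    rw [ht]
    exact (e w).isIntegral_coe
  obtain ⟨s, hs⟩ := e.surjective ⟨t, h1⟩
  refine ⟨s, e.injective ?_⟩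
  rw [map_pow, hs]
  apply RingOfIntegers.ext
  rw [← ht]
  rfl

lemma no_sq : (∀ s : ZI, s ^ 2 ≠ im1) ∧ (∀ s : ZI, s ^ 2 ≠ -im1) ∧ (∀ s : ZI, s ^ 2 ≠ 1 + im1) ∧
    (∀ s : ZI, s ^ 2 ≠ 1 - im1) := by
  refine ⟨?_, ?_, ?_, ?_⟩
  all_goals
    intro s hs
    have h1 := congrArg Zsqrtd.re hs
    have h2 := congrArg Zsqrtd.im hs
    rw [pow_two] at h1 h2
    simp only [Zsqrtd.re_mul, Zsqrtd.im_mul, Zsqrtd.re_neg, Zsqrtd.im_neg, Zsqrtd.re_add,
      Zsqrtd.im_add, Zsqrtd.re_sub, Zsqrtd.im_sub, im1, Zsqrtd.re_one, Zsqrtd.im_one] at h1 h2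
    have h3 : s.re * s.im + s.im * s.re = 2 * (s.re * s.im) := by ring
    have h4 : s.im * s.re + s.re * s.im = 2 * (s.re * s.im) := by ring
    generalize s.re * s.im = m at *
    omega

/-- the two square roots of `-1` in `K` -/
lemma root_i (e : ZI ≃+* 𝓞 K) {i : K} (hi : i ^ 2 = -1) :
    i = ((e im1 : 𝓞 K) : K) ∨ i = ((e (-im1) : 𝓞 K) : K) := by
  set j : K := ((e im1 : 𝓞 K) : K) with hj
  have hj2 : j ^ 2 = -1 := by
    have h1 : (e im1) ^ 2 = -1 := by
      rw [← map_pow, show (im1 : ZI) ^ 2 = -1 by decide, map_neg, map_one]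
    have h2 := congrArg (fun x : 𝓞 K => (x : K)) h1
    simpa using h2
  have h : i ^ 2 = j ^ 2 := by rw [hi, hj2]
  rcases sq_eq_sq_iff_eq_or_eq_neg.1 h with h | h
  · exact Or.inl h
  · right
    rw [h, map_neg]
    simp [hj]

theorem i_not_sq {i : K} (hi : i ^ 2 = -1) (t : K) : t ^ 2 ≠ i := by
  intro h
  obtain ⟨e, -⟩ := Rng.exists_e K
  rcases root_i e hi with h1 | h1
  · obtain ⟨s, hs⟩ := sq_of e _ t (h.trans h1)
    exact no_sq.1 s hs
  · obtain ⟨s, hs⟩ := sq_of e _ t (h.trans h1)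
    exact no_sq.2.1 s hs

theorem one_i_not_sq {i : K} (hi : i ^ 2 = -1) (t : K) : t ^ 2 ≠ 1 + i := by
  intro h
  obtain ⟨e, -⟩ := Rng.exists_e K
  rcases root_i e hi with h1 | h1
  · obtain ⟨s, hs⟩ := sq_of e (1 + im1) t (by
      rw [h, h1, map_add, map_one]
      simp)
    exact no_sq.2.2.1 s hs
  · obtain ⟨s, hs⟩ := sq_of e (1 - im1) t (by
      rw [h, h1, sub_eq_add_neg, map_add, map_one]
      simp)
    exact no_sq.2.2.2 s hs

end

section fields

variable {K F : Type} [Field K] [NumberField K] [IsCyclotomicExtension {4} ℚ K] [Field F]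
  [Algebra K F]

/-- the rank over `K(√i)` -/
theorem rank_z8 (h2 : Module.finrank K F = 2) {i : K} (hi : i ^ 2 = -1) {θ : F}
    (hθ : θ ^ 2 = algebraMap K F i) {D : 𝓞 K} (hD : D ≠ 0) :
    Module.finrank ℤ (cv (algebraMap K F (D : K))).toAffine.Point ≤
      Module.finrank ℤ (cv (D : K)).toAffine.Point +
        Module.finrank ℤ (cv ((-D : 𝓞 K) : K)).toAffine.Point := by
  have hD' : (D : K) ≠ 0 := by
    intro h
    exact hD (RingOfIntegers.ext (by simpa using h))
  have h := rank_quad h2 hθ (fun x hx => i_not_sq hi x ((algebraMap K F).injective (by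
    rw [map_pow, hx, hθ]))) hD'
  have e1 : i ^ 2 * (D : K) = ((-D : 𝓞 K) : K) := by
    rw [hi]
    simp
  rwa [e1] at h

/-- the rank over `K(√(1 + i))` -/
theorem rank_one_i (h2 : Module.finrank K F = 2) {i : K} (hi : i ^ 2 = -1) {θ : F}
    (hθ : θ ^ 2 = algebraMap K F (1 + i)) {D D' : 𝓞 K} (hD : D ≠ 0) (hD' : D' ≠ 0)
    (h : (1 + i) ^ 2 * (D : K) = (1 + i) ^ 4 * (D' : K)) :
    Module.finrank ℤ (cv (algebraMap K F (D : K))).toAffine.Point ≤
      Module.finrank ℤ (cv (D : K)).toAffine.Point +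
        Module.finrank ℤ (cv (D' : K)).toAffine.Point := by
  have hD1 : (D : K) ≠ 0 := by
    intro h
    exact hD (RingOfIntegers.ext (by simpa using h))
  have hD2 : (D' : K) ≠ 0 := by
    intro h
    exact hD' (RingOfIntegers.ext (by simpa using h))
  have h3 := rank_quad h2 hθ (fun x hx => one_i_not_sq hi x ((algebraMap K F).injective (by
    rw [map_pow, hx, hθ]))) hD1
  rw [h] at h3
  have h0 : (1 + i) ≠ 0 := by
    intro h0
    have h4 : i = -1 := by linear_combination h0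
    rw [h4] at hi
    have h5 : (2 : K) = 0 := by linear_combination hi
    exact two_ne_zero h5
  exact h3.trans (Nat.add_le_add_left (rank_scale h0 hD2) _)

end fields

/-- the extension of degree two -/
theorem zeta8 (K F : Type) [Field K] [NumberField K] [IsCyclotomicExtension {4} ℚ K] [Field F]
    [NumberField F] [IsCyclotomicExtension {8} ℚ F] [Algebra K F] :
    Module.finrank K F = 2 ∧ ∃ i : K, i ^ 2 = -1 ∧ ∃ θ : F, θ ^ 2 = algebraMap K F i := by
  constructor
  · have h1 : Module.finrank ℚ F = 4 := by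
      have h := IsCyclotomicExtension.finrank (n := 8) F
        (Polynomial.cyclotomic.irreducible_rat (n := 8) (by norm_num))
      rw [h]
      decide
    have h2 : Module.finrank ℚ K = 2 := by
      have h := IsCyclotomicExtension.finrank (n := 4) K
        (Polynomial.cyclotomic.irreducible_rat (n := 4) (by norm_num))
      rw [h]
      decide
    have h3 := Module.finrank_mul_finrank ℚ K F
    rw [h1, h2] at h3
    omega
  · obtain ⟨e, -⟩ := Rng.exists_e K
    obtain ⟨z, hz⟩ := IsCyclotomicExtension.exists_isPrimitiveRoot ℚ F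
      (Set.mem_singleton 8) (by norm_num)
    have hz8 : z ^ 8 = 1 := hz.pow_eq_one
    have hz4 : z ^ 4 ≠ 1 := hz.pow_ne_one_of_pos_of_lt (by norm_num) (by norm_num)
    have h4 : z ^ 4 = -1 := by
      have h5 : (z ^ 4 - 1) * (z ^ 4 + 1) = 0 := by linear_combination hz8
      rcases mul_eq_zero.1 h5 with h | h
      · exact absurd (sub_eq_zero.1 h) hz4
      · linear_combination h
    set j : K := ((e im1 : 𝓞 K) : K) with hj
    have hj2 : j ^ 2 = -1 := by
      have h1 : (e im1) ^ 2 = -1 := by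
        rw [← map_pow, show (im1 : ZI) ^ 2 = -1 by decide, map_neg, map_one]
      have h2 := congrArg (fun x : 𝓞 K => (x : K)) h1
      simpa using h2
    have h6 : (z ^ 2) ^ 2 = (algebraMap K F j) ^ 2 := by
      rw [← map_pow, hj2, map_neg, map_one, ← h4]
      ring
    rcases sq_eq_sq_iff_eq_or_eq_neg.1 h6 with h | h
    · exact ⟨j, hj2, z, h⟩
    · exact ⟨-j, by rw [neg_sq, hj2], z, by rw [h, map_neg]⟩

lemma finrank_fin {M : Type} [AddCommGroup M] (h : Finite M) : Module.finrank ℤ M = 0 := by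
  haveI := h
  have h1 : Module.IsTorsion ℤ M := by
    intro x
    obtain ⟨n, hn, hx⟩ := isOfFinAddOrder_iff_nsmul_eq_zero.1 (isOfFinAddOrder_of_finite x)
    refine ⟨⟨(n : ℤ), mem_nonZeroDivisors_of_ne_zero (by positivity)⟩, ?_⟩
    show (n : ℤ) • x = 0
    rw [natCast_zsmul]
    exact hx
  have h2 := Module.rank_eq_zero_iff_isTorsion.2 h1
  unfold Module.finrank
  rw [h2]
  simp

end Pool.Agent.D0H43.RZ
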