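import Pool.Agent.D0H43.RZ.Gal
import Pool.Agent.D0H98.Q5.LA2

/-!
# Ranks over the quadratic extensions of `ℚ(i)` that are unramified outside two: the proportions
-/

set_option autoImplicit false

open NumberField WeierstrassCurve Filter
open scoped Topology Classical

namespace Pool.Agent.D0H43.RZ

open H385 (ZI RQ im1 nrm)
open Pool.Agent.Y699 (SB mem_SB PS pi1)
open Pool.Agent.D0H10.Q4
open Pool.Agent.D0H10.Q5 (Dn Ker facts_s FactS finS finA low_of prob S_LA2 S_SUM set_and rho_lt rk2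
  rk2_pow fin_K)
open Pool.Agent.D0H10.Q5.Inf (killed SelInf E1)
open Pool.Agent.D0H43.JQ (Both One killed_eq neg_cl)

section

variable {K : Type} [Field K] [NumberField K] [IsCyclotomicExtension {4} ℚ K]

/-- the second kind: the partner of `2 Δ` -/
theorem two_eq {i i₀ : K} (hi : i ^ 2 = -1) (hi₀ : i₀ ^ 2 = -1) (D : 𝓞 K) (hD : TwP D) :
    ∃ D' : 𝓞 K, (Squarefree D' ∧ OddI D') ∧
      (killed i₀ (D : K)).ncard = (killed i₀ (D' : K)).ncard ∧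
      (1 + i) ^ 2 * (D : K) = (1 + i) ^ 4 * (D' : K) := by
  obtain ⟨e, he⟩ := Rng.exists_e K
  obtain ⟨D, rfl⟩ := e.surjective D
  obtain ⟨p, hp, Δ, hΔ, rfl⟩ := (twoK e D).1 hD
  have h2 : ∀ p ∈ S2, p = (3, 2) := by decide
  rw [h2 p hp]
  set j : K := ((e im1 : 𝓞 K) : K) with hj
  have hj2 : j ^ 2 = -1 := by
    have h1 : (e im1) ^ 2 = -1 := by
      rw [← map_pow, show (im1 : ZI) ^ 2 = -1 by decide, map_neg, map_one]
    have h2 := congrArg (fun x : 𝓞 K => (x : K)) h1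
    simpa using h2
  have h3 : i = j ∨ i = -j := by
    have h : i ^ 2 = j ^ 2 := by rw [hi, hj2]
    exact sq_eq_sq_iff_eq_or_eq_neg.1 h
  have key : ∀ a : ℕ, (a, 0) ∈ S1 → ((e (cl a 0 Δ) : 𝓞 K) : K) = -i * ((e Δ : 𝓞 K) : K) →
      ∃ D' : 𝓞 K, (Squarefree D' ∧ OddI D') ∧
      (killed i₀ ((e (cl 3 2 Δ) : 𝓞 K) : K)).ncard = (killed i₀ (D' : K)).ncard ∧
      (1 + i) ^ 2 * ((e (cl 3 2 Δ) : 𝓞 K) : K) = (1 + i) ^ 4 * (D' : K) := by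
    intro a ha h4
    refine ⟨e (cl a 0 Δ), (oneK e _).2 ⟨(a, 0), ha, Δ, hΔ, rfl⟩, ?_, ?_⟩
    · obtain ⟨⟨⟨r, hr, -, -⟩, -⟩, h5⟩ := facts_s e hi₀ (3, 2) (by decide) Δ hΔ
      obtain ⟨-, h6⟩ := facts_s e hi₀ (a, 0) ((by decide : S1 ⊆ S3) ha) Δ hΔ
      rw [hr]
      exact ((h6 r).2 ((h5 r).1 hr)).symm
    · rw [h4]
      have h5 : cl 3 2 Δ = 2 * Δ := by
        unfold cl
        have h6 : im1 ^ 3 * pi1 ^ 2 = 2 := by decide
        rw [← h6]; ring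
      rw [h5, map_mul]
      have h7 : (((e 2 * e Δ : 𝓞 K)) : K) = 2 * ((e Δ : 𝓞 K) : K) := by
        have h8 : e 2 = 2 := map_ofNat e 2
        rw [h8]
        show algebraMap (𝓞 K) K (2 * e Δ) = 2 * algebraMap (𝓞 K) K (e Δ)
        rw [map_mul, map_ofNat]
      rw [h7]
      linear_combination ((e Δ : 𝓞 K) : K) * (1 + i) ^ 2 * (i + 2) * hi
  rcases h3 with rfl | h3
  · refine key 3 (by decide) ?_
    have h4 : cl 3 0 Δ = -(im1 * Δ) := by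
      unfold cl
      have h6 : im1 ^ 3 = -im1 := by decide
      rw [h6]; ring
    rw [h4, map_neg, map_mul]
    simp [hj]
  · refine key 1 (by decide) ?_
    have h4 : cl 1 0 Δ = im1 * Δ := by
      unfold cl
      ring
    rw [h4, map_mul, h3]
    simp [hj]

end

/-- the lower bounds for the proportions and the average -/
theorem core (hLA : S_LA2) (hs : S_SUM) (K : Type) [Field K] [NumberField K]
    [IsCyclotomicExtension {4} ℚ K] (i : K) (hi : i ^ 2 = -1) (Q : 𝓞 K → Prop)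
    (hQ : Q = (fun D => Squarefree D ∧ OddI D) ∨ Q = TwP) (rk : 𝓞 K → ℕ)
    (h : ∀ D, Q D → ∀ r : ℕ, (killed i (D : K)).ncard = 2 ^ r → rk D ≤ 4 * r) :
    (∀ R : ℕ, ∀ a : ℝ, a < ∑ r ∈ Finset.range (R + 1), prob r → ∀ᶠ X : ℕ in atTop,
        a < ({D : 𝓞 K | Algebra.norm ℤ D ≤ X ∧ Q D ∧ rk D ≤ 4 * R}.ncard : ℝ) /
          ({D : 𝓞 K | Algebra.norm ℤ D ≤ X ∧ Q D}.ncard : ℝ)) ∧
      (∀ᶠ X : ℕ in atTop, (∑ᶠ D ∈ {D : 𝓞 K | Algebra.norm ℤ D ≤ X ∧ Q D}, (rk D : ℝ)) /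
          ({D : 𝓞 K | Algebra.norm ℤ D ≤ X ∧ Q D}.ncard : ℝ) < 3.06) := by
  obtain ⟨f1, f2, f3, f4, f5⟩ := finS hLA K i hi
  have hQ3 : Q = FamQ ∨ Q = (fun D => Squarefree D ∧ OddI D) ∨ Q = TwP := Or.inr hQ
  have hQF : ∀ D : 𝓞 K, Q D → FamQ D := fun D h => Pool.Agent.D0H10.Q5.fam_of hQ3 h
  have hlaw : ∀ r : ℕ, Tendsto (fun X : ℕ =>
      ({D | D ∈ {D : 𝓞 K | Algebra.norm ℤ D ≤ X ∧ Q D} ∧ (killed i (D : K)).ncard = 2 ^ r}.ncard : ℝ) /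
        ({D : 𝓞 K | Algebra.norm ℤ D ≤ X ∧ Q D}.ncard : ℝ)) atTop (𝓝 (prob r)) := by
    intro r
    simp_rw [← set_and]
    rcases hQ with rfl | rfl
    · exact f3 r
    · exact f4 r
  obtain ⟨-, h2, h3, h4⟩ := finA (Pool.Agent.D0H10.Q5.dis hLA) K i hi Q hQ3
  refine ⟨fun R a ha => ?_, ?_⟩
  · have h5 := low_of (fun X : ℕ => {D : 𝓞 K | Algebra.norm ℤ D ≤ X ∧ Q D}) h4
      (fun D => (killed i (D : K)).ncard) _ h3 prob hlaw
      (fun D => rk D ≤ 4 * R) R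
      (fun X D hD r hr hk => (h D hD.2 r hk).trans (by omega)) a ha
    filter_upwards [h5] with X hX
    rw [set_and]
    exact hX
  · have h5 : ∀ᶠ X : ℕ in atTop, (∑ᶠ D ∈ {D : 𝓞 K | Algebra.norm ℤ D ≤ X ∧ Q D},
        (rk2 (killed i (D : K)).ncard : ℝ)) /
        ({D : 𝓞 K | Algebra.norm ℤ D ≤ X ∧ Q D}.ncard : ℝ) < 0.765 :=
      h2.eventually (gt_mem_nhds (rho_lt hs))
    filter_upwards [h5, h3] with X hX0 hpos
    have hX : (∑ᶠ D ∈ {D : 𝓞 K | Algebra.norm ℤ D ≤ X ∧ Q D},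
        (rk2 (killed i (D : K)).ncard : ℝ)) /
        ({D : 𝓞 K | Algebra.norm ℤ D ≤ X ∧ Q D}.ncard : ℝ) < 0.765 := hX0
    show (∑ᶠ D ∈ {D : 𝓞 K | Algebra.norm ℤ D ≤ X ∧ Q D}, (rk D : ℝ)) /
        ({D : 𝓞 K | Algebra.norm ℤ D ≤ X ∧ Q D}.ncard : ℝ) < 3.06
    rw [div_lt_iff₀ hpos] at hX ⊢
    have h6 : ∀ F : 𝓞 K → ℝ, ∑ᶠ D ∈ {D : 𝓞 K | Algebra.norm ℤ D ≤ X ∧ Q D}, F D =
        ∑ D ∈ (h4 X).toFinset, F D := fun F => finsum_mem_eq_finite_toFinset_sum F (h4 X)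
    rw [h6] at hX ⊢
    have h7 : ∑ D ∈ (h4 X).toFinset, (rk D : ℝ) ≤
        ∑ D ∈ (h4 X).toFinset, 4 * (rk2 (killed i (D : K)).ncard : ℝ) := by
      refine Finset.sum_le_sum fun D hD => ?_
      have hD' := (h4 X).mem_toFinset.1 hD
      obtain ⟨⟨r, hr, -, -⟩, -, -⟩ := f1 D (hQF D hD'.2)
      have h8 := h D hD'.2 r hr
      rw [hr, rk2_pow]
      exact_mod_cast h8
    rw [← Finset.mul_sum] at h7
    linarith

end Pool.Agent.D0H43.RZ
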