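import Pool.Agent.D0H43.RZ.Quad
import Pool.Agent.D0H43.JQ.End
import Pool.Agent.D0H10.Q5.AvI

/-!
# Ranks over the quadratic extensions of `ℚ(i)` that are unramified outside two
-/

set_option autoImplicit false

namespace Pool.Agent.D0H43.RZ

open WeierstrassCurve NumberField
open scoped Classical
open Pool.Agent.TH841.NF
open Pool.Agent.TH841.SH.D (Pt act)

section sigma

variable {K F : Type} [Field K] [Field F] [CharZero K] [Algebra K F] {d : K} {θ : F}

theorem exists_sigma (h2 : Module.finrank K F = 2) (hθ : θ ^ 2 = algebraMap K F d)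
    (hn : ∀ x : K, algebraMap K F x ≠ θ) :
    ∃ σ : F →ₐ[K] F, σ θ = -θ ∧ (∀ x, σ x = x → ∃ y, algebraMap K F y = x) ∧
      ∀ x, σ (σ x) = x := by
  haveI : Algebra.IsQuadraticExtension K F := ⟨h2⟩
  haveI : FiniteDimensional K F := FiniteDimensional.of_finrank_pos (by omega)
  have hc : Fintype.card Gal(F/K) = 2 := by
    rw [← Nat.card_eq_fintype_card, IsGalois.card_aut_eq_finrank, h2]
  have hb : ∀ x : F, x ∈ (⊥ : IntermediateField K F) ↔ ∃ y, algebraMap K F y = x := fun x =>
    IntermediateField.mem_bot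
  obtain ⟨σ, hσ⟩ : ∃ σ : Gal(F/K), σ θ ≠ θ := by
    by_contra hcon
    push Not at hcon
    obtain ⟨y, hy⟩ := (hb θ).1 ((IsGalois.mem_bot_iff_fixed θ).2 hcon)
    exact hn y hy
  have hσ1 : σ ≠ 1 := by
    rintro rfl
    exact hσ rfl
  have hall : ∀ τ : Gal(F/K), τ = 1 ∨ τ = σ := by
    intro τ
    by_contra hcon
    push Not at hcon
    have h3 : ({1, σ, τ} : Finset Gal(F/K)).card = 3 := by
      rw [Finset.card_insert_of_notMem (by simp [hσ1.symm, hcon.1.symm]),
        Finset.card_pair hcon.2.symm]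
    have h4 := Finset.card_le_univ ({1, σ, τ} : Finset Gal(F/K))
    rw [h3, hc] at h4
    omega
  have hs : σ * σ = 1 := by
    have h3 := pow_card_eq_one' (x := σ)
    rw [Nat.card_eq_fintype_card, hc, pow_two] at h3
    exact h3
  refine ⟨σ.toAlgHom, ?_, fun x hx => ?_, fun x => ?_⟩
  · have h3 : (σ θ) ^ 2 = θ ^ 2 := by
      rw [← map_pow, hθ]
      exact σ.commutes d
    rcases sq_eq_sq_iff_eq_or_eq_neg.1 h3 with h | h
    · exact absurd h hσ
    · exact h
  · refine (hb x).1 ((IsGalois.mem_bot_iff_fixed x).2 fun τ => ?_)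
    rcases hall τ with rfl | rfl
    · rfl
    · exact hx
  · have h3 := congrArg (fun τ : Gal(F/K) => τ x) hs
    exact h3

end sigma

section rank

lemma finrank_of_eq {K : Type} [Field K] {W W' : WeierstrassCurve.Affine K} (h : W = W') :
    Module.finrank ℤ W.Point = Module.finrank ℤ W'.Point := by
  subst h
  rfl

lemma mfin_of_eq {K : Type} [Field K] {W W' : WeierstrassCurve.Affine K} (h : W = W')
    (h1 : Module.Finite ℤ W.Point) : Module.Finite ℤ W'.Point := by
  subst h
  exact h1

lemma bc_eq' {K F : Type} [Field K] [Field F] [Algebra K F] (D : K) :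
    ((cv D).baseChange F).toAffine = (cv (algebraMap K F D)).toAffine := by
  unfold cv WeierstrassCurve.baseChange WeierstrassCurve.map
  ext <;> simp

lemma mw {K : Type} [Field K] [NumberField K] {D : K} (hD : D ≠ 0) :
    Module.Finite ℤ (cv D).toAffine.Point := by
  have h := Pool.Agent.D0H43.JQ.fg_Cv hD
  have h1 : AddGroup.FG (cv D).toAffine.Point := h
  exact Module.Finite.iff_addGroup_fg.2 h1

lemma rk_bc {K F : Type} [Field K] [Field F] [Algebra K F] (D : K) :
    Module.finrank ℤ (Pt (cv D) F) = Module.finrank ℤ (cv (algebraMap K F D)).toAffine.Point :=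
  finrank_of_eq (bc_eq' D)

lemma rk_self {K : Type} [Field K] (D : K) :
    Module.finrank ℤ (Pt (cv D) K) = Module.finrank ℤ (cv D).toAffine.Point := by
  have h := rk_bc (K := K) (F := K) D
  rw [Algebra.algebraMap_self_apply] at h
  exact h

lemma mw_Pt {K : Type} [Field K] [NumberField K] {D : K} (hD : D ≠ 0) :
    Module.Finite ℤ (Pt (cv D) K) := by
  refine mfin_of_eq (W := (cv D).toAffine) ?_ (mw hD)
  have h := bc_eq' (K := K) (F := K) D
  rw [Algebra.algebraMap_self_apply] at h
  exact h.symm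

/-- the rank over a quadratic extension -/
theorem rank_quad {K F : Type} [Field K] [NumberField K] [Field F] [Algebra K F]
    (h2 : Module.finrank K F = 2) {d : K} {θ : F} (hθ : θ ^ 2 = algebraMap K F d)
    (hn : ∀ x : K, algebraMap K F x ≠ θ) {D : K} (hD : D ≠ 0) :
    Module.finrank ℤ (cv (algebraMap K F D)).toAffine.Point ≤
      Module.finrank ℤ (cv D).toAffine.Point + Module.finrank ℤ (cv (d ^ 2 * D)).toAffine.Point := by
  obtain ⟨σ, h3, h4, h5⟩ := exists_sigma h2 hθ hn
  have h0 : θ ≠ 0 := by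
    intro h
    exact hn 0 (by rw [map_zero, h])
  have hd : d ≠ 0 := by
    intro h
    rw [h, map_zero] at hθ
    exact h0 (pow_eq_zero_iff (two_ne_zero) |>.1 hθ)
  haveI := mw_Pt hD
  haveI := mw_Pt (mul_ne_zero (pow_ne_zero 2 hd) hD)
  have h := rank_le (D := D) hθ h0 σ h3 h4 h5
  rw [rk_bc, rk_self, rk_self] at h
  exact h

lemma sc_id {K : Type} [Field K] {u D : K} (hu : u ≠ 0) :
    Sc (RingHom.id K) u⁻¹ ((cv (u ^ 4 * D)).baseChange K) ((cv D).baseChange K) where
  hu := inv_ne_zero hu
  h1 := by simp [cv, WeierstrassCurve.baseChange]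
  h2 := by simp [cv, WeierstrassCurve.baseChange]
  h3 := by simp [cv, WeierstrassCurve.baseChange]
  h4 := by
    simp only [cv, WeierstrassCurve.baseChange, WeierstrassCurve.map]
    show D = u ^ 4 * D * u⁻¹ ^ 4
    field_simp
  h6 := by simp [cv, WeierstrassCurve.baseChange]

theorem rank_scale {K : Type} [Field K] [NumberField K] {u D : K} (hu : u ≠ 0) (hD : D ≠ 0) :
    Module.finrank ℤ (cv (u ^ 4 * D)).toAffine.Point ≤
      Module.finrank ℤ (cv D).toAffine.Point := by
  haveI := mw_Pt hD
  rw [← rk_self, ← rk_self]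
  exact LinearMap.finrank_le_finrank_of_injective (f := (tm (sc_id (D := D) hu)).toIntLinearMap)
    (tm_inj (sc_id (D := D) hu))

/-- a finitely generated group of rank zero is finite -/
theorem fin_of_rank {M : Type} [AddCommGroup M] [Module.Finite ℤ M]
    (h : Module.finrank ℤ M = 0) : Finite M := by
  have h1 : Module.IsTorsion ℤ M := by
    rw [← Module.rank_eq_zero_iff_isTorsion, ← Module.finrank_eq_rank, h]
    simp
  haveI : Module.IsTorsion ℤ M := h1
  exact Module.finite_of_fg_torsion M h1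

end rank

end Pool.Agent.D0H43.RZ
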