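import Pool.Agent.TH841.NF.Conc

/-!
# The points of `y² = x³ + D x` over a quadratic extension
-/

set_option autoImplicit false

namespace Pool.Agent.D0H43.RZ

open WeierstrassCurve
open Pool.Agent.TH841.NF
open Pool.Agent.TH841.SH.D (Pt act)

/-- the curve `y² = x³ + D x` -/
def cv {F : Type} [Field F] (D : F) : WeierstrassCurve F := ⟨0, 0, 0, D, 0⟩

section rk

variable {A B C : Type} [AddCommGroup A] [AddCommGroup B] [AddCommGroup C]

/-- the rank of a finitely generated product -/
lemma finrank_prod_le [Module.Finite ℤ B] [Module.Finite ℤ C] :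
    Module.finrank ℤ (B × C) ≤ Module.finrank ℤ B + Module.finrank ℤ C := by
  have h1 := Submodule.finrank_quotient_add_finrank (R := ℤ) (M := B × C)
    (LinearMap.ker (LinearMap.fst ℤ B C))
  have e1 : Module.finrank ℤ ((B × C) ⧸ LinearMap.ker (LinearMap.fst ℤ B C)) =
      Module.finrank ℤ B := by
    refine LinearEquiv.finrank_eq (LinearMap.quotKerEquivOfSurjective _ ?_)
    exact LinearMap.fst_surjective
  have e2 : Module.finrank ℤ (LinearMap.ker (LinearMap.fst ℤ B C)) ≤ Module.finrank ℤ C := by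
    refine LinearMap.finrank_le_finrank_of_injective
      (f := (LinearMap.snd ℤ B C).comp (LinearMap.ker (LinearMap.fst ℤ B C)).subtype) ?_
    rintro ⟨⟨b, c⟩, h⟩ ⟨⟨b', c'⟩, h'⟩ he
    rw [LinearMap.mem_ker, LinearMap.fst_apply] at h h'
    simp only [LinearMap.comp_apply, Submodule.subtype_apply, LinearMap.snd_apply] at he
    simp only at h h'
    subst h h' he
    rfl
  omega

/-- a homomorphism with a kernel of finite exponent -/
lemma finrank_le_of (Φ : B × C →+ A) [Module.Finite ℤ B] [Module.Finite ℤ C]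
    (h : ∀ a : A, ∃ x : B × C, Φ x = (2 : ℤ) • a) :
    Module.finrank ℤ A ≤ Module.finrank ℤ B + Module.finrank ℤ C := by
  obtain ⟨v, hv⟩ := exists_linearIndependent_of_le_finrank (R := ℤ) (M := A) le_rfl
  choose w hw using fun j => h (v j)
  have h1 : LinearIndependent ℤ w := by
    refine LinearIndependent.of_comp Φ.toIntLinearMap ?_
    have e : (⇑Φ.toIntLinearMap ∘ w) = fun j => (2 : ℤ) • v j := by
      funext j
      exact hw j
    rw [e]
    rw [Fintype.linearIndependent_iff] at hv ⊢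
    intro g hg j
    have h2 := hv (fun j => g j * 2) (by
      rw [← hg]
      refine Finset.sum_congr rfl fun j _ => ?_
      rw [mul_smul]) j
    simpa using h2
  have h2 := h1.fintype_card_le_finrank
  rw [Fintype.card_fin] at h2
  exact h2.trans finrank_prod_le

end rk

section quad

variable {K F : Type} [Field K] [Field F] [Algebra K F] {D d : K} {θ : F}

lemma sc_inc : Sc (algebraMap K F) 1 ((cv D).baseChange K) ((cv D).baseChange F) where
  hu := one_ne_zero
  h1 := by simp [cv, WeierstrassCurve.baseChange]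
  h2 := by simp [cv, WeierstrassCurve.baseChange]
  h3 := by simp [cv, WeierstrassCurve.baseChange]
  h4 := by simp [cv, WeierstrassCurve.baseChange]
  h6 := by simp [cv, WeierstrassCurve.baseChange]

lemma sc_tw (hθ : θ ^ 2 = algebraMap K F d) (h0 : θ ≠ 0) :
    Sc (algebraMap K F) θ⁻¹ ((cv (d ^ 2 * D)).baseChange K) ((cv D).baseChange F) where
  hu := inv_ne_zero h0
  h1 := by simp [cv, WeierstrassCurve.baseChange]
  h2 := by simp [cv, WeierstrassCurve.baseChange]
  h3 := by simp [cv, WeierstrassCurve.baseChange]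
  h4 := by
    simp only [cv, WeierstrassCurve.baseChange, WeierstrassCurve.map]
    show algebraMap K F D = algebraMap K F (algebraMap K K (d ^ 2 * D)) * θ⁻¹ ^ 4
    rw [Algebra.algebraMap_self_apply, map_mul, map_pow, ← hθ]
    field_simp
  h6 := by simp [cv, WeierstrassCurve.baseChange]

/-- **The rank over a quadratic extension.** -/
theorem rank_le (hθ : θ ^ 2 = algebraMap K F d) (h0 : θ ≠ 0) (σ : F →ₐ[K] F)
    (hσ : σ θ = -θ) (hfix : ∀ x, σ x = x → ∃ y, algebraMap K F y = x)
    (hσσ : ∀ x, σ (σ x) = x)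
    [Module.Finite ℤ (Pt (cv D) K)] [Module.Finite ℤ (Pt (cv (d ^ 2 * D)) K)] :
    Module.finrank ℤ (Pt (cv D) F) ≤
      Module.finrank ℤ (Pt (cv D) K) + Module.finrank ℤ (Pt (cv (d ^ 2 * D)) K) := by
  set Φ : Pt (cv D) K × Pt (cv (d ^ 2 * D)) K →+ Pt (cv D) F :=
    AddMonoidHom.coprod (tm (sc_inc (D := D) (F := F))) (tm (sc_tw (D := D) hθ h0)) with hΦ
  refine finrank_le_of Φ fun R => ?_
  have hfx : ∀ R : Pt (cv D) F, act (cv D) σ R = R → ∃ P, tm (sc_inc (D := D) (F := F)) P = R := by
    intro R hR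
    rcases R with _ | ⟨x, y, h⟩
    · exact ⟨0, map_zero _⟩
    · rw [act_some'] at hR
      obtain ⟨hx, hy⟩ := pt_inj _ _ hR
      obtain ⟨x₀, rfl⟩ := hfix x hx
      obtain ⟨y₀, rfl⟩ := hfix y hy
      have h' : ((cv D).baseChange K).toAffine.Nonsingular x₀ y₀ := by
        rw [← ns_iff (sc_inc (D := D) (F := F))]
        simpa using h
      refine ⟨Affine.Point.some x₀ y₀ h', ?_⟩
      rw [tm_some]
      exact pt_ext _ _ (by ring) (by ring)
  have hax : ∀ R : Pt (cv D) F, act (cv D) σ R = -R →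
      ∃ P, tm (sc_tw (D := D) hθ h0) P = R := by
    intro R hR
    rcases R with _ | ⟨x, y, h⟩
    · exact ⟨0, map_zero _⟩
    · rw [act_some'] at hR
      have hR' := hR.trans (Affine.Point.neg_some _)
      obtain ⟨hx, hy⟩ := pt_inj _ _ hR'
      obtain ⟨x₀, rfl⟩ := hfix x hx
      have hy1 : σ y = -y := by
        rw [hy, Affine.negY]
        simp [cv, WeierstrassCurve.baseChange]
      obtain ⟨y₀, hy₀⟩ := hfix (y * θ) (by rw [map_mul, hy1, hσ]; ring)
      have e1 : algebraMap K F (d * x₀) * θ⁻¹ ^ 2 = algebraMap K F x₀ := by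
        rw [map_mul, ← hθ]
        field_simp
      have e2 : algebraMap K F (d * y₀) * θ⁻¹ ^ 3 = y := by
        rw [map_mul, hy₀, ← hθ]
        field_simp
      have h' : ((cv (d ^ 2 * D)).baseChange K).toAffine.Nonsingular (d * x₀) (d * y₀) := by
        rw [← ns_iff (sc_tw (D := D) hθ h0), e1, e2]
        exact h
      refine ⟨Affine.Point.some (d * x₀) (d * y₀) h', ?_⟩
      rw [tm_some]
      exact pt_ext _ _ e1 e2
  have hsc : Sc (RingHom.id F) 1 ((cv D).baseChange F) ((cv D).baseChange F) :=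
    ⟨one_ne_zero, by simp, by simp, by simp, by simp, by simp⟩
  have hinv : ∀ R : Pt (cv D) F, act (cv D) σ (act (cv D) σ R) = R := by
    intro R
    rcases R with _ | ⟨x, y, h⟩
    · rfl
    · rw [act_some', act_some']
      exact pt_ext _ _ (hσσ x) (hσσ y)
  obtain ⟨P, hP⟩ := hfx (R + act (cv D) σ R) (by rw [map_add, hinv, add_comm])
  obtain ⟨Q, hQ⟩ := hax (R - act (cv D) σ R) (by rw [map_sub, hinv]; abel)
  refine ⟨(P, Q), ?_⟩
  rw [hΦ, AddMonoidHom.coprod_apply, hP, hQ]
  show R + act (cv D) σ R + (R - act (cv D) σ R) = (2 : ℤ) • R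
  rw [two_zsmul]
  abel

end quad

end Pool.Agent.D0H43.RZ
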